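import Mathlib

set_option autoImplicit false

namespace Pool.Agent.Z864.UB

open IntermediateField

universe u v

section fields

variable {k : Type u} {K : Type v} [Field k] [Field K] [Algebra k K]

/-- the matroid of algebraic independence -/
noncomputable abbrev MM (k : Type u) (K : Type v) [Field k] [Field K] [Algebra k K] : Matroid K :=
  AlgebraicIndependent.matroid k K

lemma mem_cl {S : Set K} {x : K} :
    x ∈ (MM k K).closure S ↔ IsAlgebraic (IntermediateField.adjoin k S) x := by
  rw [AlgebraicIndependent.matroid_closure_eq, IntermediateField.isAlgebraic_adjoin_iff]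
  exact Iff.rfl

lemma subset_ground' (S : Set K) : S ⊆ (MM k K).E := Set.subset_univ S

lemma sub_cl (S : Set K) : S ⊆ (MM k K).closure S :=
  (MM k K).subset_closure S (subset_ground' S)

lemma cl_cl {S T : Set K} (h : T ⊆ (MM k K).closure S) :
    (MM k K).closure T ⊆ (MM k K).closure S := by
  have := (MM k K).closure_subset_closure h
  rwa [(MM k K).closure_closure] at this

lemma mem_cl_empty {x : K} : x ∈ (MM k K).closure ∅ ↔ IsAlgebraic k x := by
  rw [mem_cl, IntermediateField.adjoin_empty]
  constructor
  · intro h1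
    exact h1.restrictScalars k
  · intro h1
    exact h1.tower_top _

/-- an element which is algebraic over each `k(B \ b)` is algebraic over `k` -/
lemma alg_of_all {B : Set K} (hB : AlgebraicIndependent k ((↑) : B → K)) (hne : B.Nonempty) {x : K}
    (h : ∀ b ∈ B, x ∈ (MM k K).closure (B \ {b})) : IsAlgebraic k x := by
  rw [← mem_cl_empty]
  have hI : (MM k K).Indep B := AlgebraicIndependent.matroid_indep_iff.mpr hB
  have : Nonempty B := hne.coe_sort
  have h1 := hI.closure_iInter_eq_biInter_closure_of_forall_subset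
    (Js := fun b : B => B \ {(b : K)}) (fun b => Set.sdiff_subset)
  have h2 : (⋂ b : B, B \ {(b : K)}) = ∅ := by
    ext y
    simp only [Set.mem_iInter, Set.mem_sdiff, Set.mem_singleton_iff, Subtype.forall,
      Set.mem_empty_iff_false, iff_false, not_forall]
    by_contra hcon
    push Not at hcon
    obtain ⟨b, hb⟩ := hne
    have := (hcon b hb).1
    exact (hcon y this).2 rfl
  rw [h2] at h1
  rw [h1, Set.mem_iInter]
  rintro ⟨b, hb⟩
  exact h b hb

lemma mem_cl_of_adjoin {S : Set K} {x : K} (h : x ∈ IntermediateField.adjoin k S) :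
    x ∈ (MM k K).closure S :=
  mem_cl.mpr (isAlgebraic_algebraMap (⟨x, h⟩ : IntermediateField.adjoin k S))

/-- data for the function field over a subfield -/
lemma sub_data {B S T : Set K} {b : K} (hB : AlgebraicIndependent k ((↑) : B → K)) (hb : b ∈ B)
    (hS : S.Finite) (htop : IntermediateField.adjoin k (B ∪ S) = ⊤)
    (hScl : S ⊆ (MM k K).closure B) (hT : T ⊆ (MM k K).closure (B \ {b})) :
    (⊤ : IntermediateField (IntermediateField.adjoin k ((B \ {b}) ∪ T)) K).FG ∧
    (∃ x : K, Transcendental (IntermediateField.adjoin k ((B \ {b}) ∪ T)) x ∧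
      Algebra.IsAlgebraic (IntermediateField.adjoin
        (IntermediateField.adjoin k ((B \ {b}) ∪ T)) {x}) K) ∧
    (S ⊆ T → ∃ x : K, IntermediateField.adjoin
        (IntermediateField.adjoin k ((B \ {b}) ∪ T)) {x} = ⊤) := by
  have hI : (MM k K).Indep B := AlgebraicIndependent.matroid_indep_iff.mpr hB
  have hcl : (MM k K).closure ((B \ {b}) ∪ T) = (MM k K).closure (B \ {b}) := by
    apply Set.Subset.antisymm
    · apply cl_cl
      exact Set.union_subset (sub_cl _) hT
    · exact (MM k K).closure_subset_closure Set.subset_union_left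
  have hgen : ∀ V : Set K, B ∪ S ⊆ ((B \ {b}) ∪ T) ∪ V →
      IntermediateField.adjoin (IntermediateField.adjoin k ((B \ {b}) ∪ T)) V = ⊤ := by
    intro V hV
    apply IntermediateField.restrictScalars_injective k
    rw [IntermediateField.adjoin_adjoin_left, IntermediateField.restrictScalars_top, eq_top_iff,
      ← htop]
    exact IntermediateField.adjoin.mono _ _ _ hV
  refine ⟨?_, ⟨b, ?_, ?_⟩, ?_⟩
  · rw [← hgen ({b} ∪ S) (by
      intro y hy
      rcases hy with hy | hy
      · by_cases hyb : y = b
        · exact Or.inr (Or.inl hyb)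
        · exact Or.inl (Or.inl ⟨hy, hyb⟩)
      · exact Or.inr (Or.inr hy))]
    exact IntermediateField.fg_adjoin_of_finite ((Set.finite_singleton b).union hS)
  · intro h
    have h1 : b ∈ (MM k K).closure ((B \ {b}) ∪ T) := mem_cl.mpr h
    rw [hcl] at h1
    exact hI.notMem_closure_sdiff_of_mem hb h1
  · have h1 : ∀ x : K, x ∈ (MM k K).closure B := by
      intro x
      have h2 : x ∈ IntermediateField.adjoin k (B ∪ S) := by rw [htop]; trivial
      exact cl_cl (Set.union_subset (sub_cl _) hScl) (mem_cl_of_adjoin h2)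
    refine ⟨fun x => ?_⟩
    have h2 : IsAlgebraic (IntermediateField.adjoin k (((B \ {b}) ∪ T) ∪ {b})) x := by
      rw [← mem_cl]
      refine (MM k K).closure_subset_closure ?_ (h1 x)
      intro y hy
      by_cases hyb : y = b
      · exact Or.inr hyb
      · exact Or.inl (Or.inl ⟨hy, hyb⟩)
    rw [← IntermediateField.adjoin_adjoin_left] at h2
    exact h2
  · intro hST
    refine ⟨b, hgen {b} ?_⟩
    intro y hy
    rcases hy with hy | hy
    · by_cases hyb : y = b
      · exact Or.inr hyb
      · exact Or.inl (Or.inl ⟨hy, hyb⟩)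
    · exact Or.inl (Or.inr (hST hy))

/-- the shape of the extension -/
lemma shape {B : Set K} [FiniteDimensional (IntermediateField.adjoin k B) K] :
    ∃ S : Set K, S.Finite ∧ IntermediateField.adjoin k (B ∪ S) = ⊤ ∧
      ∃ B₁ : Finset K, (B₁ : Set K) ⊆ B ∧ S ⊆ (MM k K).closure B₁ := by
  obtain ⟨S, hS⟩ := IntermediateField.fg_of_noetherian
    (⊤ : IntermediateField (IntermediateField.adjoin k B) K)
  have h1 : IntermediateField.adjoin k (B ∪ (S : Set K)) = ⊤ := by
    rw [← IntermediateField.adjoin_adjoin_left, hS, IntermediateField.restrictScalars_top]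
  have h2 : (S : Set K) ⊆ (MM k K).closure B := by
    intro s _
    rw [mem_cl]
    exact Algebra.IsAlgebraic.isAlgebraic s
  obtain ⟨I, hI, hIf, -, hSI⟩ := Matroid.exists_subset_finite_closure_of_subset_closure
    (M := MM k K) S.finite_toSet h2
  refine ⟨S, S.finite_toSet, h1, hIf.toFinset, ?_, ?_⟩
  · rw [Set.Finite.coe_toFinset]
    exact hI
  · rw [Set.Finite.coe_toFinset]
    exact hSI

end fields

end Pool.Agent.Z864.UB
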