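import Pool.Agent.Z864.UB.Interp
import Pool.Agent.Z864.UB.Alg

set_option autoImplicit false

namespace Pool.Agent.Z864.UB

open Polynomial Finset

universe u v

/-- over `F` the map `p / q` is conjugate to one with coefficients algebraic over `k` -/
def CA (k : Type*) {F : Type*} [Field k] [Field F] [Algebra k F] (p q : F[X]) (d : ℕ) : Prop :=
  ∃ a b c e : F, a * e - b * c ≠ 0 ∧ ∃ u w : F[X], (u ≠ 0 ∨ w ≠ 0) ∧
    u.natDegree ≤ d ∧ w.natDegree ≤ d ∧ (∀ n, IsAlgebraic k (u.coeff n)) ∧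
    (∀ n, IsAlgebraic k (w.coeff n)) ∧
    (C a * p + C b * q) * hcp d w (C a * X + C b) (C c * X + C e) =
    (C c * p + C e * q) * hcp d u (C a * X + C b) (C c * X + C e)

section

variable {k : Type u} {K : Type v} [Field k] [Field K] [Algebra k K]

lemma CA_map {d : ℕ} {p q : K[X]} (h : CA k p q d) :
    CA k (p.map (algebraMap K (AlgebraicClosure K))) (q.map (algebraMap K (AlgebraicClosure K)))
      d := by
  obtain ⟨a, b, c, e, hdet, u, w, hne, hu, hw, hua, hwa, hid⟩ := h
  set ψ := algebraMap K (AlgebraicClosure K) with hψ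
  have hψi := ψ.injective
  refine ⟨ψ a, ψ b, ψ c, ψ e, ?_, u.map ψ, w.map ψ, ?_, natDegree_map_le.trans hu,
    natDegree_map_le.trans hw, fun n => ?_, fun n => ?_, ?_⟩
  · rw [← map_mul, ← map_mul, ← map_sub]
    exact (map_ne_zero ψ).mpr hdet
  · rcases hne with h | h
    · exact Or.inl ((Polynomial.map_ne_zero_iff hψi).mpr h)
    · exact Or.inr ((Polynomial.map_ne_zero_iff hψi).mpr h)
  · rw [coeff_map]
    exact (hua n).algebraMap
  · rw [coeff_map]
    exact (hwa n).algebraMap
  · have h1 := congrArg (fun g : K[X] => g.map ψ) hid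
    simp only [Polynomial.map_mul] at h1
    rw [← hcp_map, ← hcp_map] at h1
    simp only [Polynomial.map_add, Polynomial.map_mul, map_C, map_X] at h1
    exact h1

lemma lead {d : ℕ} (hd : 2 ≤ d) {p q : K[X]} (hmax : max p.natDegree q.natDegree = d) :
    p.natDegree ≤ d ∧ q.natDegree ≤ d ∧ (p.coeff d ≠ 0 ∨ q.coeff d ≠ 0) := by
  refine ⟨by rw [← hmax]; exact le_max_left _ _, by rw [← hmax]; exact le_max_right _ _, ?_⟩
  rcases le_total p.natDegree q.natDegree with h | h
  · right
    rw [max_eq_right h] at hmax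
    rw [← hmax]
    apply leadingCoeff_ne_zero.mpr
    rintro rfl
    rw [natDegree_zero] at hmax
    omega
  · left
    rw [max_eq_left h] at hmax
    rw [← hmax]
    apply leadingCoeff_ne_zero.mpr
    rintro rfl
    rw [natDegree_zero] at hmax
    omega

lemma xr_of_iso {d : ℕ} (hd : 2 ≤ d) {p q : K[X]} (hmax : max p.natDegree q.natDegree = d)
    (hco : IsCoprime p q)
    (h : CA k (p.map (algebraMap K (AlgebraicClosure K)))
      (q.map (algebraMap K (AlgebraicClosure K))) d) {z₁ z₂ z₃ z : Option K}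
    (hz₁ : (Set.range fun m : ℕ => (rt p q d)^[m] z₁).Finite)
    (hz₂ : (Set.range fun m : ℕ => (rt p q d)^[m] z₂).Finite)
    (hz₃ : (Set.range fun m : ℕ => (rt p q d)^[m] z₃).Finite)
    (hz : (Set.range fun m : ℕ => (rt p q d)^[m] z).Finite) :
    IsAlgebraic k (xr z₁ z₂ z₃ z) := by
  obtain ⟨a, b, c, e, hdet, u, w, hne, hu, hw, hua, hwa, hid⟩ := h
  obtain ⟨hp, hq, hl⟩ := lead hd hmax
  set ψ := algebraMap K (AlgebraicClosure K) with hψ
  have hl' : (p.map ψ).coeff d ≠ 0 ∨ (q.map ψ).coeff d ≠ 0 := by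
    rw [coeff_map, coeff_map]
    rcases hl with h | h
    · exact Or.inl ((map_ne_zero ψ).mpr h)
    · exact Or.inr ((map_ne_zero ψ).mpr h)
  have h1 := alg_xr (k := k) hd (natDegree_map_le.trans hp) (natDegree_map_le.trans hq) hl'
    ((Polynomial.isCoprime_map ψ).mpr hco) hdet hne hu hw hua hwa hid
    (orbit_map ψ p q d z₁ hz₁) (orbit_map ψ p q d z₂ hz₂) (orbit_map ψ p q d z₃ hz₃)
    (orbit_map ψ p q d z hz)
  rw [xr_map] at h1
  exact (isAlgebraic_algebraMap_iff ψ.injective).mp h1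

/-- **Descent.** -/
theorem descent {B : Set K} (hB : AlgebraicIndependent k ((↑) : B → K))
    (hspan : ∀ x : K, x ∈ (MM k K).closure B) (T : K → Set K)
    (hT : ∀ b ∈ B, T b ⊆ (MM k K).closure (B \ {b})) {d : ℕ} (hd : 2 ≤ d) {p q : K[X]}
    (hmax : max p.natDegree q.natDegree = d) (hco : IsCoprime p q) {P : Finset (Option K)}
    (hP : ∀ z ∈ P, rt p q d z ∈ P) (hcard : 2 * d + 2 ≤ P.card)
    (hiso : ∀ b ∈ B, CA (IntermediateField.adjoin k ((B \ {b}) ∪ T b))
      (p.map (algebraMap K (AlgebraicClosure K))) (q.map (algebraMap K (AlgebraicClosure K))) d) :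
    CA k p q d := by
  obtain ⟨hp, hq, hl⟩ := lead hd hmax
  obtain ⟨z₁, z₂, z₃, hz₁, hz₂, hz₃, h12, h13, h23⟩ :=
    Finset.two_lt_card_iff.mp (by omega : 2 < P.card)
  have horb : ∀ z ∈ P, (Set.range fun m : ℕ => (rt p q d)^[m] z).Finite := by
    intro z hz
    apply P.finite_toSet.subset
    rintro _ ⟨m, rfl⟩
    rw [Finset.mem_coe]
    induction m with
    | zero => exact hz
    | succ m ih =>
      simp only
      rw [Function.iterate_succ_apply']
      exact hP _ ih
  refine iso_of_xr hp hq hl hco hP h12 h13 h23 hcard ?_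
  intro z hz
  rcases B.eq_empty_or_nonempty with hBe | hBne
  · have := hspan (xr z₁ z₂ z₃ z)
    rw [hBe] at this
    exact mem_cl_empty.mp this
  · refine alg_of_all hB hBne ?_
    intro b hb
    have h1 := xr_of_iso hd hmax hco (hiso b hb) (horb z₁ hz₁) (horb z₂ hz₂) (horb z₃ hz₃)
      (horb z hz)
    exact cl_cl (Set.union_subset (sub_cl _) (hT b hb)) (mem_cl.mpr h1)

end

/-- the shape of a finitely generated extension -/
lemma shape_fg {k : Type u} {K : Type v} [Field k] [Field K] [Algebra k K]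
    (hFG : (⊤ : IntermediateField k K).FG) :
    ∃ B S : Set K, AlgebraicIndependent k ((↑) : B → K) ∧ S.Finite ∧
      IntermediateField.adjoin k (B ∪ S) = ⊤ ∧
      ∃ B₁ : Finset K, (B₁ : Set K) ⊆ B ∧ S ⊆ (MM k K).closure B₁ := by
  obtain ⟨S, hS⟩ := hFG
  obtain ⟨B, hB⟩ := exists_isTranscendenceBasis k K
  have hbase : (MM k K).IsBase B := AlgebraicIndependent.matroid_isBase_iff.mpr hB
  have h2 : (S : Set K) ⊆ (MM k K).closure B := by
    rw [hbase.closure_eq]
    exact Set.subset_univ _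
  obtain ⟨I, hI, hIf, -, hSI⟩ := Matroid.exists_subset_finite_closure_of_subset_closure
    (M := MM k K) S.finite_toSet h2
  refine ⟨B, S, hB.1, S.finite_toSet, ?_, hIf.toFinset, ?_, ?_⟩
  · rw [eq_top_iff, ← hS]
    exact IntermediateField.adjoin.mono _ _ _ Set.subset_union_right
  · rw [Set.Finite.coe_toFinset]
    exact hI
  · rw [Set.Finite.coe_toFinset]
    exact hSI

/-- preperiodic points lie in finite stable sets -/
theorem encard_of_stable {A : Type u} (F : A → A) (M : ℕ)
    (h : ∀ P : Finset A, (∀ z ∈ P, F z ∈ P) → P.card ≤ M) :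
    {z : A | (Set.range fun m : ℕ => F^[m] z).Finite}.encard ≤ (M : ℕ∞) := by
  classical
  by_contra hcon
  push Not at hcon
  obtain ⟨T, hTs, hT⟩ := Set.exists_subset_encard_eq (Order.add_one_le_of_lt hcon)
  have hTf : T.Finite := by
    apply Set.finite_of_encard_eq_coe (k := M + 1)
    rw [hT]
    norm_cast
  have h1 : (⋃ z ∈ T, Set.range fun m : ℕ => F^[m] z).Finite :=
    hTf.biUnion fun z hz => hTs hz
  have h2 := h h1.toFinset (by
    intro z hz
    rw [Set.Finite.mem_toFinset, Set.mem_iUnion₂] at hz ⊢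
    obtain ⟨w, hw, m, hm⟩ := hz
    refine ⟨w, hw, m + 1, ?_⟩
    simp only at hm ⊢
    rw [Function.iterate_succ_apply', hm])
  have h3 : hTf.toFinset ⊆ h1.toFinset := by
    intro z hz
    rw [Set.Finite.mem_toFinset] at hz ⊢
    rw [Set.mem_iUnion₂]
    exact ⟨z, hz, 0, rfl⟩
  have h4 := Finset.card_le_card h3
  have h5 : (hTf.toFinset.card : ℕ∞) = M + 1 := by
    rw [← hT, hTf.encard_eq_coe_toFinset_card]
  have h6 : hTf.toFinset.card = M + 1 := by exact_mod_cast h5
  omega

/-- the known case: transcendence degree one -/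
def Base (N : ℕ → ℕ → ℕ) : Prop := ∀ (k : Type v) (K : Type v) [Field k] [Field K]
    [Algebra k K], (⊤ : IntermediateField k K).FG →
    (∃ x : K, Transcendental k x ∧ Algebra.IsAlgebraic (IntermediateField.adjoin k {x}) K) →
    ∃ c : ℕ, ((∃ t : K, IntermediateField.adjoin k {t} = ⊤) → c = 0) ∧ ∀ d : ℕ, 2 ≤ d →
    ∀ p q : K[X], IsCoprime p q → max p.natDegree q.natDegree = d →
    ¬ CA k (p.map (algebraMap K (AlgebraicClosure K))) (q.map (algebraMap K (AlgebraicClosure K)))
      d →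
    {z : Option K | (Set.range fun m : ℕ => (rt p q d)^[m] z).Finite}.encard ≤ (N d c : ℕ∞)

/-- all transcendence degrees, for given generators -/
theorem ubp_gen (N : ℕ → ℕ → ℕ) (hN : Base.{v} N) (k : Type u) (K : Type v) [Field k] [Field K]
    [Algebra k K] {B S : Set K} (hB : AlgebraicIndependent k ((↑) : B → K)) (hS : S.Finite)
    (htop : IntermediateField.adjoin k (B ∪ S) = ⊤) (B₁ : Finset K) (hB₁ : (B₁ : Set K) ⊆ B)
    (hScl : S ⊆ (MM k K).closure B₁) :
    ∃ c : ℕ, (B₁ = ∅ → c = 0) ∧ ∀ d : ℕ, 2 ≤ d →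
    ∀ p q : K[X], IsCoprime p q → max p.natDegree q.natDegree = d → ¬ CA k p q d →
    {z : Option K | (Set.range fun m : ℕ => (rt p q d)^[m] z).Finite}.encard ≤
      ((∑ i ∈ range (c + 1), N d i + (2 * d + 2) : ℕ) : ℕ∞) := by
  classical
  set T : K → Set K := fun b => if b ∈ B₁ then ∅ else S with hTdef
  have hSB : S ⊆ (MM k K).closure B := hScl.trans ((MM k K).closure_subset_closure hB₁)
  have hT : ∀ b ∈ B, T b ⊆ (MM k K).closure (B \ {b}) := by
    intro b _
    by_cases h : b ∈ B₁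
    · simp only [hTdef, if_pos h]
      exact Set.empty_subset _
    · simp only [hTdef, if_neg h]
      refine hScl.trans ((MM k K).closure_subset_closure ?_)
      intro y hy
      refine ⟨hB₁ hy, ?_⟩
      rintro rfl
      exact h hy
  have hspan : ∀ x : K, x ∈ (MM k K).closure B := by
    intro x
    have h2 : x ∈ IntermediateField.adjoin k (B ∪ S) := by rw [htop]; trivial
    exact cl_cl (Set.union_subset (sub_cl _) hSB) (mem_cl_of_adjoin h2)
  have hc : ∀ b : K, ∃ c : ℕ, b ∈ B → ((b ∉ B₁ → c = 0) ∧ ∀ d : ℕ, 2 ≤ d →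
      ∀ p q : K[X], IsCoprime p q → max p.natDegree q.natDegree = d →
      ¬ CA (IntermediateField.adjoin k ((B \ {b}) ∪ T b))
        (p.map (algebraMap K (AlgebraicClosure K)))
        (q.map (algebraMap K (AlgebraicClosure K))) d →
      {z : Option K | (Set.range fun m : ℕ => (rt p q d)^[m] z).Finite}.encard ≤
        (N d c : ℕ∞)) := by
    intro b
    by_cases hb : b ∈ B
    · obtain ⟨h1, h2, h3⟩ := sub_data hB hb hS htop hSB (hT b hb)
      obtain ⟨c, hc0, hc⟩ := hN (IntermediateField.adjoin k ((B \ {b}) ∪ T b)) K h1 h2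
      refine ⟨c, fun _ => ⟨fun h => hc0 (h3 ?_), hc⟩⟩
      simp only [hTdef, if_neg h]
      exact subset_rfl
    · exact ⟨0, fun h => absurd h hb⟩
  choose c hc using hc
  refine ⟨B₁.sup c, fun h => by rw [h]; rfl, ?_⟩
  intro d hd p q hco hmax hiso
  apply encard_of_stable
  intro P hP
  by_contra hcon
  push Not at hcon
  apply hiso
  refine descent hB hspan T hT hd hmax hco hP (by omega) ?_
  intro b hb
  by_contra hni
  obtain ⟨hc0, hcb⟩ := hc b hb
  have h1 := hcb d hd p q hco hmax hni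
  have hle : c b ≤ B₁.sup c := by
    by_cases h : b ∈ B₁
    · exact Finset.le_sup h
    · rw [hc0 h]
      exact Nat.zero_le _
  have h2 : (P : Set (Option K)) ⊆
      {z : Option K | (Set.range fun m : ℕ => (rt p q d)^[m] z).Finite} := by
    intro z hz
    apply P.finite_toSet.subset
    rintro _ ⟨m, rfl⟩
    rw [Finset.mem_coe]
    induction m with
    | zero => exact hz
    | succ m ih =>
      simp only
      rw [Function.iterate_succ_apply']
      exact hP _ ih
  have h3 := (Set.encard_le_encard h2).trans h1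
  rw [Set.encard_coe_eq_coe_finsetCard] at h3
  have h4 : P.card ≤ N d (c b) := by exact_mod_cast h3
  have h5 : N d (c b) ≤ ∑ i ∈ range (B₁.sup c + 1), N d i :=
    Finset.single_le_sum (f := fun i => N d i) (fun i _ => Nat.zero_le _)
      (Finset.mem_range.mpr (by omega))
  omega

/-- **Uniform boundedness over finite extensions of purely transcendental extensions.** -/
theorem ubp_all (N : ℕ → ℕ → ℕ) (hN : Base.{v} N) (k : Type u) (K : Type v) [Field k] [Field K]
    [Algebra k K] (hK : (⊤ : IntermediateField k K).FG ∨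
      ∃ B : Set K, AlgebraicIndependent k ((↑) : B → K) ∧
        FiniteDimensional (IntermediateField.adjoin k B) K) :
    ∃ c : ℕ, ((∃ B : Set K, AlgebraicIndependent k ((↑) : B → K) ∧
      IntermediateField.adjoin k B = ⊤) → c = 0) ∧ ∀ d : ℕ, 2 ≤ d →
    ∀ p q : K[X], IsCoprime p q → max p.natDegree q.natDegree = d → ¬ CA k p q d →
    {z : Option K | (Set.range fun m : ℕ => (rt p q d)^[m] z).Finite}.encard ≤
      ((∑ i ∈ range (c + 1), N d i + (2 * d + 2) : ℕ) : ℕ∞) := by
  by_cases hPT : ∃ B : Set K, AlgebraicIndependent k ((↑) : B → K) ∧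
      IntermediateField.adjoin k B = ⊤
  · obtain ⟨B, hB, htop⟩ := hPT
    obtain ⟨c, hc0, hc⟩ := ubp_gen N hN k K (S := ∅) hB Set.finite_empty
      (by rw [Set.union_empty]; exact htop) ∅ (by simp) (Set.empty_subset _)
    exact ⟨c, fun _ => hc0 rfl, hc⟩
  · rcases hK with hFG | ⟨B, hB, hfin⟩
    · obtain ⟨B, S, hB, hS, htop, B₁, hB₁, hScl⟩ := shape_fg (k := k) (K := K) hFG
      obtain ⟨c, -, hc⟩ := ubp_gen N hN k K hB hS htop B₁ hB₁ hScl
      exact ⟨c, fun h => absurd h hPT, hc⟩
    · obtain ⟨S, hS, htop, B₁, hB₁, hScl⟩ := shape (k := k) (B := B)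
      obtain ⟨c, -, hc⟩ := ubp_gen N hN k K hB hS htop B₁ hB₁ hScl
      exact ⟨c, fun h => absurd h hPT, hc⟩

end Pool.Agent.Z864.UB
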