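import Pool.Agent.Z864.UB.Forms

set_option autoImplicit false

namespace Pool.Agent.Z864.UB

open Polynomial Finset

section conj

variable {F : Type*} [Field F]

/-- a form which vanishes after an invertible substitution -/
lemma hcp_inj [Infinite F] {d : ℕ} {u : F[X]} (hu : u.natDegree ≤ d) {a b c e : F}
    (hdet : a * e - b * c ≠ 0) (h : hcp d u (C a * X + C b) (C c * X + C e) = 0) : u = 0 := by
  classical
  apply eq_zero_of_infinite_isRoot
  have hfin : {y : F | a - c * y = 0}.Finite := by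
    by_cases hc : c = 0
    · have ha : a ≠ 0 := by
        rintro rfl
        apply hdet
        rw [hc]
        ring
      have : {y : F | a - c * y = 0} = ∅ := by
        ext y
        simp [hc, ha]
      rw [this]
      exact Set.finite_empty
    · apply (Set.finite_singleton (a / c)).subset
      intro y hy
      have hy' : a - c * y = 0 := hy
      rw [Set.mem_singleton_iff, eq_div_iff hc]
      linear_combination -hy'
  refine hfin.infinite_compl.mono ?_
  intro y hy
  have hy' : a - c * y ≠ 0 := hy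
  have h1 := congrArg (eval ((e * y - b) / (a - c * y))) h
  rw [hcp_eval, eval_zero] at h1
  have h2 : (eval ((e * y - b) / (a - c * y)) (C a * X + C b : F[X]),
      eval ((e * y - b) / (a - c * y)) (C c * X + C e : F[X])) =
      ((a * e - b * c) / (a - c * y)) • ((y, 1) : F × F) := by
    ext
    · simp only [eval_add, eval_mul, eval_C, eval_X, Prod.smul_fst, smul_eq_mul]
      rw [div_mul_eq_mul_div, mul_div_assoc', div_add' _ _ _ hy', div_left_inj' hy']
      ring
    · simp only [eval_add, eval_mul, eval_C, eval_X, Prod.smul_snd, smul_eq_mul]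
      rw [mul_one, mul_div_assoc', div_add' _ _ _ hy', div_left_inj' hy']
      ring
  rw [h2, hv_smul, hv_one d u hu] at h1
  exact (mul_eq_zero.mp h1).resolve_left (pow_ne_zero _ (div_ne_zero hdet hy'))

/-- the conjugate map is exactly the given one -/
lemma key_id [Infinite F] {d : ℕ} (hd : 1 ≤ d) {p q u w : F[X]}
    (hl : p.coeff d ≠ 0 ∨ q.coeff d ≠ 0) (hco : IsCoprime p q)
    {a b c e : F} (hdet : a * e - b * c ≠ 0) (hne : u ≠ 0 ∨ w ≠ 0) (hu : u.natDegree ≤ d)
    (hw : w.natDegree ≤ d)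
    (hid : (C a * p + C b * q) * hcp d w (C a * X + C b) (C c * X + C e) =
      (C c * p + C e * q) * hcp d u (C a * X + C b) (C c * X + C e)) :
    ∃ t : F, t ≠ 0 ∧ hcp d u (C a * X + C b) (C c * X + C e) = C t * (C a * p + C b * q) ∧
      hcp d w (C a * X + C b) (C c * X + C e) = C t * (C c * p + C e * q) := by
  obtain ⟨A, hA⟩ : ∃ A, A = C a * p + C b * q := ⟨_, rfl⟩
  obtain ⟨B, hB⟩ : ∃ B, B = C c * p + C e * q := ⟨_, rfl⟩
  obtain ⟨U, hU⟩ : ∃ U, U = hcp d u (C a * X + C b) (C c * X + C e) := ⟨_, rfl⟩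
  obtain ⟨W, hW⟩ : ∃ W, W = hcp d w (C a * X + C b) (C c * X + C e) := ⟨_, rfl⟩
  rw [← hA, ← hB, ← hU, ← hW] at hid ⊢
  have hdC : (C (a * e - b * c) : F[X]) * C (a * e - b * c)⁻¹ = 1 := by
    rw [← C_mul, mul_inv_cancel₀ hdet, C_1]
  have hcoAB : IsCoprime A B := by
    obtain ⟨r, s, hrs⟩ := hco
    refine ⟨C (a * e - b * c)⁻¹ * (r * C e - s * C c), C (a * e - b * c)⁻¹ * (s * C a - r * C b), ?_⟩
    have h1 : C (a * e - b * c)⁻¹ * (r * C e - s * C c) * A +
        C (a * e - b * c)⁻¹ * (s * C a - r * C b) * B =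
        C (a * e - b * c) * C (a * e - b * c)⁻¹ * (r * p + s * q) := by
      rw [hA, hB]
      simp only [C_sub, C_mul]
      ring
    rw [h1, hdC, hrs, one_mul]
  have hAB : A.coeff d ≠ 0 ∨ B.coeff d ≠ 0 := by
    by_contra hcon
    push Not at hcon
    obtain ⟨h1, h2⟩ := hcon
    rw [hA, coeff_add, coeff_C_mul, coeff_C_mul] at h1
    rw [hB, coeff_add, coeff_C_mul, coeff_C_mul] at h2
    rcases hl with h | h
    · apply h
      apply (mul_eq_zero.mp _).resolve_left hdet
      linear_combination e * h1 - b * h2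
    · apply h
      apply (mul_eq_zero.mp _).resolve_left hdet
      linear_combination a * h2 - c * h1
  have hUd : U.natDegree ≤ d := by
    have := hcp_degree d 1 u _ _ (lin_deg a b) (lin_deg c e)
    rwa [mul_one, ← hU] at this
  have hWd : W.natDegree ≤ d := by
    have := hcp_degree d 1 w _ _ (lin_deg a b) (lin_deg c e)
    rwa [mul_one, ← hW] at this
  -- divisibility
  obtain ⟨t, ht⟩ : A ∣ U := by
    apply hcoAB.dvd_of_dvd_mul_left
    rw [← hid]
    exact dvd_mul_right _ _
  have hA0 : A ≠ 0 := by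
    rintro h0
    rw [h0] at hcoAB hAB
    have h1 := natDegree_eq_zero_of_isUnit (isCoprime_zero_left.mp hcoAB)
    rcases hAB with h | h
    · exact h (coeff_zero d)
    · exact h (coeff_eq_zero_of_natDegree_lt (by omega))
  have hWt : W = B * t := by
    apply mul_left_cancel₀ hA0
    rw [hid, ht]
    ring
  have ht0 : t ≠ 0 := by
    rintro rfl
    rw [mul_zero] at ht hWt
    rcases hne with h | h
    · exact h (hcp_inj hu hdet (hU.symm.trans ht))
    · exact h (hcp_inj hw hdet (hW.symm.trans hWt))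
  have htd : t.natDegree = 0 := by
    rcases hAB with h | h
    · have h1 := le_natDegree_of_ne_zero h
      have h2 : U.natDegree = A.natDegree + t.natDegree := by rw [ht, natDegree_mul hA0 ht0]
      omega
    · have hB0 : B ≠ 0 := by
        rintro h0
        rw [h0] at h
        exact h (coeff_zero d)
      have h1 := le_natDegree_of_ne_zero h
      have h2 : W.natDegree = B.natDegree + t.natDegree := by rw [hWt, natDegree_mul hB0 ht0]
      omega
  obtain ⟨t₀, rfl⟩ := natDegree_eq_zero.mp htd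
  refine ⟨t₀, ?_, by rw [ht, mul_comm], by rw [hWt, mul_comm]⟩
  rintro rfl
  exact ht0 C_0

/-- the homogeneous lift of `u / w` -/
def GG (d : ℕ) (u w : F[X]) (v : F × F) : F × F := (hv d u v, hv d w v)

lemma GG_smul (d : ℕ) (u w : F[X]) (t : F) (v : F × F) :
    GG d u w (t • v) = t ^ d • GG d u w v := by
  unfold GG
  rw [hv_smul, hv_smul]
  rfl

lemma GG_iter_smul (d : ℕ) (u w : F[X]) (t : F) (v : F × F) (n : ℕ) :
    (GG d u w)^[n] (t • v) = t ^ d ^ n • (GG d u w)^[n] v := by
  induction n with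
  | zero => simp
  | succ n ih =>
    rw [Function.iterate_succ_apply', Function.iterate_succ_apply', ih, GG_smul, ← pow_mul,
      pow_succ]

/-- the iterates along an orbit -/
lemma GG_orbit {d : ℕ} {p q u w : F[X]} (hp : p.natDegree ≤ d)
    (hq : q.natDegree ≤ d) (hl : p.coeff d ≠ 0 ∨ q.coeff d ≠ 0) (hco : IsCoprime p q)
    {a b c e t : F} (ht : t ≠ 0)
    (h1 : hcp d u (C a * X + C b) (C c * X + C e) = C t * (C a * p + C b * q))
    (h2 : hcp d w (C a * X + C b) (C c * X + C e) = C t * (C c * p + C e * q))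
    (z : Option F) (n : ℕ) :
    ∃ ν : F, ν ≠ 0 ∧ (GG d u w)^[n] (mx a b c e (vec z)) =
      ν • mx a b c e (vec ((rt p q d)^[n] z)) := by
  induction n with
  | zero => exact ⟨1, one_ne_zero, by simp⟩
  | succ n ih =>
    obtain ⟨ν, hν, h⟩ := ih
    rw [Function.iterate_succ_apply', Function.iterate_succ_apply', h, GG_smul]
    obtain ⟨μ, hμ, e1, e2⟩ := lift_rt hp hq hl hco ((rt p q d)^[n] z)
    refine ⟨ν ^ d * (t * μ), mul_ne_zero (pow_ne_zero _ hν) (mul_ne_zero ht hμ), ?_⟩
    rw [mul_smul]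
    congr 1
    unfold GG
    rw [hom_id hp hq h1, hom_id hp hq h2, e1, e2]
    ext
    · simp only [mx, Prod.smul_fst, smul_eq_mul]
      ring
    · simp only [mx, Prod.smul_snd, smul_eq_mul]
      ring

/-- the lift has no zeros -/
lemma GG_nz {d : ℕ} {p q u w : F[X]} (hd : d ≠ 0) (hp : p.natDegree ≤ d)
    (hq : q.natDegree ≤ d) (hl : p.coeff d ≠ 0 ∨ q.coeff d ≠ 0) (hco : IsCoprime p q)
    {a b c e t : F} (ht : t ≠ 0) (hdet : a * e - b * c ≠ 0)
    (h1 : hcp d u (C a * X + C b) (C c * X + C e) = C t * (C a * p + C b * q))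
    (h2 : hcp d w (C a * X + C b) (C c * X + C e) = C t * (C c * p + C e * q))
    {v : F × F} (hv0 : v ≠ 0) : GG d u w v ≠ 0 := by
  intro h0
  obtain ⟨v', hv'⟩ : ∃ v' : F × F, v = mx a b c e v' := by
    refine ⟨((a * e - b * c)⁻¹ * (e * v.1 - b * v.2), (a * e - b * c)⁻¹ * (a * v.2 - c * v.1)), ?_⟩
    have hi : (a * e - b * c) * (a * e - b * c)⁻¹ = 1 := mul_inv_cancel₀ hdet
    ext
    · simp only [mx]
      linear_combination -v.1 * hi
    · simp only [mx]
      linear_combination -v.2 * hi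
  have e1 : hv d u v = 0 := congrArg Prod.fst h0
  have e2 : hv d w v = 0 := congrArg Prod.snd h0
  rw [hv', hom_id hp hq h1] at e1
  rw [hv', hom_id hp hq h2] at e2
  have e3 := (mul_eq_zero.mp e1).resolve_left ht
  have e4 := (mul_eq_zero.mp e2).resolve_left ht
  have e5 := mx_ne hdet (v := (hv d p v', hv d q v')) (Prod.ext e3 e4)
  have e6 := hv_nz hp hq hl hd hco (congrArg Prod.fst e5) (congrArg Prod.snd e5)
  apply hv0
  rw [hv', e6]
  simp [mx]

lemma GG_iter_nz {d : ℕ} {u w : F[X]} (h : ∀ v : F × F, v ≠ 0 → GG d u w v ≠ 0) (n : ℕ)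
    {v : F × F} (hv0 : v ≠ 0) : (GG d u w)^[n] v ≠ 0 := by
  induction n with
  | zero => exact hv0
  | succ n ih =>
    rw [Function.iterate_succ_apply']
    exact h _ ih

end conj

section trans

variable {k F : Type*} [Field k] [Field F] [Algebra k F]

/-- polynomial iterates over a subfield -/
noncomputable def PP {E : Type*} [Field E] (d : ℕ) (u w : E[X]) : ℕ → E[X] × E[X]
  | 0 => (X, 1)
  | n + 1 => (hcp d u (PP d u w n).1 (PP d u w n).2, hcp d w (PP d u w n).1 (PP d u w n).2)

lemma PP_eval {E : Type*} [Field E] [Algebra E F] (d : ℕ) (u w : E[X]) (x : F) (n : ℕ) :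
    (aeval x (PP d u w n).1, aeval x (PP d u w n).2) =
      (GG d (u.map (algebraMap E F)) (w.map (algebraMap E F)))^[n] (x, 1) := by
  induction n with
  | zero => simp [PP]
  | succ n ih =>
    rw [Function.iterate_succ_apply', ← ih]
    have key : ∀ g : E[X], aeval x (hcp d g (PP d u w n).1 (PP d u w n).2) =
        hv d (g.map (algebraMap E F)) (aeval x (PP d u w n).1, aeval x (PP d u w n).2) := by
      intro g
      rw [aeval_def, ← eval_map, ← hcp_map, hcp_eval, eval_map_algebraMap, eval_map_algebraMap]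
    show (aeval x (hcp d u (PP d u w n).1 (PP d u w n).2),
      aeval x (hcp d w (PP d u w n).1 (PP d u w n).2)) = _
    rw [key, key]
    rfl

lemma PP_deg {E : Type*} [Field E] (d : ℕ) (u w : E[X]) (n : ℕ) :
    (PP d u w n).1.natDegree ≤ d ^ n ∧ (PP d u w n).2.natDegree ≤ d ^ n := by
  induction n with
  | zero =>
    rw [pow_zero]
    exact ⟨natDegree_X_le, by rw [show (PP d u w 0).2 = 1 from rfl, natDegree_one]; omega⟩
  | succ n ih =>
    rw [pow_succ, mul_comm]
    exact ⟨hcp_degree _ _ _ _ _ ih.1 ih.2, hcp_degree _ _ _ _ _ ih.1 ih.2⟩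

lemma PP_coeff {E : Type*} [Field E] [Algebra E F] (d : ℕ) (u w : E[X]) (n : ℕ) :
    (algebraMap E F ((PP d u w n).1.coeff (d ^ n)), algebraMap E F ((PP d u w n).2.coeff (d ^ n))) =
      (GG d (u.map (algebraMap E F)) (w.map (algebraMap E F)))^[n] ((1, 0) : F × F) := by
  induction n with
  | zero =>
    rw [pow_zero]
    have h1 : (PP d u w 0).1 = X := rfl
    have h2 : (PP d u w 0).2 = 1 := rfl
    rw [h1, h2, coeff_X_one, coeff_one, if_neg one_ne_zero, map_one, map_zero]
    rfl
  | succ n ih =>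
    rw [Function.iterate_succ_apply', ← ih]
    have hd := PP_deg d u w n
    have key : ∀ g : E[X], (hcp d g (PP d u w n).1 (PP d u w n).2).coeff (d ^ (n + 1)) =
        hv d g ((PP d u w n).1.coeff (d ^ n), (PP d u w n).2.coeff (d ^ n)) := by
      intro g
      rw [pow_succ, mul_comm, hcp_coeff _ _ _ _ _ hd.1 hd.2]
    show (algebraMap E F ((hcp d u (PP d u w n).1 (PP d u w n).2).coeff (d ^ (n + 1))),
      algebraMap E F ((hcp d w (PP d u w n).1 (PP d u w n).2).coeff (d ^ (n + 1)))) = _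
    rw [key, key, ← hv_map, ← hv_map]
    rfl

/-- a transcendental point is not preperiodic -/
lemma not_prep [IsAlgClosed F] {E : Type*} [Field E] [Algebra E F] {d : ℕ} (hd : 2 ≤ d) (u w : E[X])
    (hnz : ∀ v : F × F, v ≠ 0 →
      GG d (u.map (algebraMap E F)) (w.map (algebraMap E F)) v ≠ 0) {τ : F}
    (hτ : Transcendental E τ) {m n : ℕ} (hmn : n < m)
    (h : wd ((GG d (u.map (algebraMap E F)) (w.map (algebraMap E F)))^[m] (τ, 1))
      ((GG d (u.map (algebraMap E F)) (w.map (algebraMap E F)))^[n] (τ, 1)) = 0) : False := by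
  rw [← PP_eval, ← PP_eval] at h
  obtain ⟨Um, hUm⟩ : ∃ U, U = (PP d u w m).1 := ⟨_, rfl⟩
  obtain ⟨Wm, hWm⟩ : ∃ U, U = (PP d u w m).2 := ⟨_, rfl⟩
  obtain ⟨Un, hUn⟩ : ∃ U, U = (PP d u w n).1 := ⟨_, rfl⟩
  obtain ⟨Wn, hWn⟩ : ∃ U, U = (PP d u w n).2 := ⟨_, rfl⟩
  rw [← hUm, ← hWm, ← hUn, ← hWn] at h
  have hR : Um * Wn = Wm * Un := by
    have h1 : aeval τ (Um * Wn - Wm * Un) = 0 := by
      rw [map_sub, map_mul, map_mul]
      exact h
    exact sub_eq_zero.mp (transcendental_iff.mp hτ _ h1)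
  have hcop : ∀ j, IsCoprime (PP d u w j).1 (PP d u w j).2 := by
    intro j
    refine (isCoprime_iff_aeval_ne_zero_of_isAlgClosed (k := E) F _ _).mpr ?_
    intro x
    by_contra hcon
    push Not at hcon
    have h1 := PP_eval (F := F) d u w x j
    rw [hcon.1, hcon.2] at h1
    exact GG_iter_nz hnz j (v := (x, 1)) (fun h => one_ne_zero (congrArg Prod.snd h)) h1.symm
  have hlead : (PP d u w m).1.coeff (d ^ m) ≠ 0 ∨ (PP d u w m).2.coeff (d ^ m) ≠ 0 := by
    by_contra hcon
    push Not at hcon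
    have h1 := PP_coeff (F := F) d u w m
    rw [hcon.1, hcon.2, map_zero] at h1
    exact GG_iter_nz hnz m (v := (1, 0)) (fun h => one_ne_zero (congrArg Prod.fst h)) h1.symm
  have hcm := hcop m
  have hcn := hcop n
  have hdn := PP_deg d u w n
  rw [← hUm, ← hWm] at hcm hlead
  rw [← hUn, ← hWn] at hcn hdn
  have hpow : d ^ n < d ^ m := Nat.pow_lt_pow_right (by omega) hmn
  have d1 : Um ∣ Un := by
    apply hcm.dvd_of_dvd_mul_left
    rw [← hR]
    exact dvd_mul_right _ _
  have d2 : Wm ∣ Wn := by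
    apply hcm.symm.dvd_of_dvd_mul_left
    rw [hR]
    exact dvd_mul_right _ _
  rcases hlead with hl | hl
  · have h1 := le_natDegree_of_ne_zero hl
    have hUm0 : Um ≠ 0 := by
      rintro h0
      rw [h0] at hl
      exact hl (coeff_zero _)
    by_cases hUn0 : Un = 0
    · rw [hUn0, mul_zero] at hR
      rw [hUn0, (mul_eq_zero.mp hR).resolve_left hUm0] at hcn
      exact not_isCoprime_zero_zero hcn
    · have h2 := natDegree_le_of_dvd d1 hUn0
      omega
  · have h1 := le_natDegree_of_ne_zero hl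
    have hWm0 : Wm ≠ 0 := by
      rintro h0
      rw [h0] at hl
      exact hl (coeff_zero _)
    by_cases hWn0 : Wn = 0
    · rw [hWn0, mul_zero] at hR
      rw [hWn0, (mul_eq_zero.mp hR.symm).resolve_left hWm0] at hcn
      exact not_isCoprime_zero_zero hcn
    · have h2 := natDegree_le_of_dvd d2 hWn0
      omega

end trans

end Pool.Agent.Z864.UB
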