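import Mathlib

set_option autoImplicit false

namespace Pool.Agent.Z864.UB

open Polynomial Finset

section forms

variable {F : Type*} [Field F]

/-- value of the form of degree `d` attached to `p` -/
def hv (d : ℕ) (p : F[X]) (v : F × F) : F :=
  ∑ i ∈ range (d + 1), p.coeff i * v.1 ^ i * v.2 ^ (d - i)

/-- composition of a form with a pair of polynomials -/
noncomputable def hcp (d : ℕ) (A p q : F[X]) : F[X] :=
  ∑ i ∈ range (d + 1), C (A.coeff i) * p ^ i * q ^ (d - i)

/-- determinant of two vectors -/
def wd (X Y : F × F) : F := X.1 * Y.2 - X.2 * Y.1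

/-- homogeneous coordinates -/
def vec : Option F → F × F
  | some x => (x, 1)
  | none => (1, 0)

/-- the map `p / q` -/
noncomputable def rt (p q : F[X]) (d : ℕ) : Option F → Option F
  | some x => by classical exact if q.eval x = 0 then none else some (p.eval x / q.eval x)
  | none => by classical exact if q.coeff d = 0 then none else some (p.coeff d / q.coeff d)

/-- a matrix -/
def mx (a b c e : F) (v : F × F) : F × F := (a * v.1 + b * v.2, c * v.1 + e * v.2)

lemma hv_smul (d : ℕ) (p : F[X]) (t : F) (v : F × F) : hv d p (t • v) = t ^ d * hv d p v := by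
  unfold hv
  rw [Finset.mul_sum]
  apply Finset.sum_congr rfl
  intro i hi
  rw [Finset.mem_range] at hi
  simp only [Prod.smul_fst, Prod.smul_snd, smul_eq_mul]
  have : t ^ d = t ^ i * t ^ (d - i) := by rw [← pow_add]; congr 1; omega
  rw [this]
  ring

lemma hv_one (d : ℕ) (p : F[X]) (hp : p.natDegree ≤ d) (x : F) : hv d p (x, 1) = p.eval x := by
  unfold hv
  rw [Polynomial.eval_eq_sum_range' (n := d + 1) (by omega)]
  simp

lemma hv_zero (d : ℕ) (p : F[X]) (x : F) : hv d p (x, 0) = p.coeff d * x ^ d := by
  unfold hv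
  rw [Finset.sum_eq_single d]
  · simp
  · intro i hi hne
    rw [Finset.mem_range] at hi
    have : d - i ≠ 0 := by omega
    simp [this]
  · intro h
    exact absurd (Finset.mem_range.mpr (Nat.lt_succ_self d)) h

lemma hcp_eval (n : ℕ) (A p q : F[X]) (x : F) :
    (hcp n A p q).eval x = hv n A (p.eval x, q.eval x) := by
  unfold hcp hv
  rw [eval_finsetSum]
  apply Finset.sum_congr rfl
  intro i _
  simp

lemma hcp_degree (n d : ℕ) (A p q : F[X]) (hp : p.natDegree ≤ d) (hq : q.natDegree ≤ d) :
    (hcp n A p q).natDegree ≤ n * d := by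
  unfold hcp
  apply natDegree_sum_le_of_forall_le
  intro i hi
  rw [Finset.mem_range] at hi
  refine natDegree_mul_le.trans ?_
  have h1 : (C (A.coeff i) * p ^ i).natDegree ≤ i * d :=
    (natDegree_C_mul_le _ _).trans (natDegree_pow_le.trans (Nat.mul_le_mul_left _ hp))
  have h2 : (q ^ (n - i)).natDegree ≤ (n - i) * d :=
    natDegree_pow_le.trans (Nat.mul_le_mul_left _ hq)
  calc _ ≤ i * d + (n - i) * d := add_le_add h1 h2
    _ = n * d := by rw [← add_mul]; congr 1; omega

lemma hcp_coeff (n d : ℕ) (A p q : F[X]) (hp : p.natDegree ≤ d) (hq : q.natDegree ≤ d) :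
    (hcp n A p q).coeff (n * d) = hv n A (p.coeff d, q.coeff d) := by
  unfold hcp hv
  rw [finsetSum_coeff]
  apply Finset.sum_congr rfl
  intro i hi
  rw [Finset.mem_range] at hi
  have e1 : n * d = i * d + (n - i) * d := by rw [← add_mul]; congr 1; omega
  have h2 : (p ^ i).natDegree ≤ i * d := natDegree_pow_le.trans (Nat.mul_le_mul_left _ hp)
  have h3 : (q ^ (n - i)).natDegree ≤ (n - i) * d :=
    natDegree_pow_le.trans (Nat.mul_le_mul_left _ hq)
  rw [mul_assoc, coeff_C_mul, e1, coeff_mul_add_eq_of_natDegree_le h2 h3,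
    coeff_pow_of_natDegree_le hp, coeff_pow_of_natDegree_le hq]
  ring

lemma hv_map {L : Type*} [Field L] (φ : F →+* L) (d : ℕ) (p : F[X]) (v : F × F) :
    hv d (p.map φ) (φ v.1, φ v.2) = φ (hv d p v) := by
  unfold hv
  rw [map_sum]
  apply Finset.sum_congr rfl
  intro i _
  simp

lemma hcp_map {L : Type*} [Field L] (φ : F →+* L) (n : ℕ) (A p q : F[X]) :
    hcp n (A.map φ) (p.map φ) (q.map φ) = (hcp n A p q).map φ := by
  unfold hcp
  rw [Polynomial.map_sum]
  apply Finset.sum_congr rfl
  intro i _
  simp

lemma vec_ne (z : Option F) : vec z ≠ 0 := by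
  rcases z with _ | x
  · intro h
    exact one_ne_zero (congrArg Prod.fst h)
  · intro h
    exact one_ne_zero (congrArg Prod.snd h)

lemma wd_ne {z z' : Option F} (h : z ≠ z') : wd (vec z) (vec z') ≠ 0 := by
  rcases z with _ | x
  · rcases z' with _ | x'
    · exact absurd rfl h
    · simp [wd, vec]
  · rcases z' with _ | x'
    · simp [wd, vec]
    · intro h0
      apply h
      simp only [wd, vec] at h0
      have : x = x' := by linear_combination h0
      rw [this]

lemma wd_mx (a b c e : F) (v w : F × F) :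
    wd (mx a b c e v) (mx a b c e w) = (a * e - b * c) * wd v w := by
  unfold wd mx
  simp only
  ring

lemma wd_smul (s t : F) (v w : F × F) : wd (s • v) (t • w) = s * t * wd v w := by
  unfold wd
  simp only [Prod.smul_fst, Prod.smul_snd, smul_eq_mul]
  ring

lemma mx_smul (a b c e t : F) (v : F × F) : mx a b c e (t • v) = t • mx a b c e v := by
  unfold mx
  ext
  · simp only [Prod.smul_fst, Prod.smul_snd, smul_eq_mul]
    ring
  · simp only [Prod.smul_fst, Prod.smul_snd, smul_eq_mul]
    ring

lemma mx_ne {a b c e : F} (hdet : a * e - b * c ≠ 0) {v : F × F} (h : mx a b c e v = 0) :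
    v = 0 := by
  have h1 : a * v.1 + b * v.2 = 0 := congrArg Prod.fst h
  have h2 : c * v.1 + e * v.2 = 0 := congrArg Prod.snd h
  have h3 : (a * e - b * c) * v.1 = 0 := by linear_combination e * h1 - b * h2
  have h4 : (a * e - b * c) * v.2 = 0 := by linear_combination a * h2 - c * h1
  exact Prod.ext ((mul_eq_zero.mp h3).resolve_left hdet) ((mul_eq_zero.mp h4).resolve_left hdet)

lemma hv_nz {d : ℕ} {p q : F[X]} (hp : p.natDegree ≤ d) (hq : q.natDegree ≤ d)
    (hl : p.coeff d ≠ 0 ∨ q.coeff d ≠ 0) (hd : d ≠ 0) (hco : IsCoprime p q) {v : F × F}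
    (h1 : hv d p v = 0) (h2 : hv d q v = 0) : v = 0 := by
  by_cases hy : v.2 = 0
  · have hv' : v = (v.1, 0) := Prod.ext rfl hy
    rw [hv', hv_zero] at h1 h2
    have h3 : v.1 ^ d = 0 := by
      rcases hl with hl | hl
      · exact (mul_eq_zero.mp h1).resolve_left hl
      · exact (mul_eq_zero.mp h2).resolve_left hl
    exact Prod.ext ((pow_eq_zero_iff hd).mp h3) hy
  · exfalso
    have hv' : v = v.2 • ((v.1 / v.2, 1) : F × F) := by
      ext
      · simp only [Prod.smul_fst, smul_eq_mul]
        field_simp
      · simp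
    rw [hv', hv_smul, hv_one d _ (by assumption)] at h1 h2
    have e1 := (mul_eq_zero.mp h1).resolve_left (pow_ne_zero _ hy)
    have e2 := (mul_eq_zero.mp h2).resolve_left (pow_ne_zero _ hy)
    obtain ⟨r, s, hrs⟩ := hco
    have := congrArg (eval (v.1 / v.2)) hrs
    rw [eval_add, eval_mul, eval_mul, e1, e2, mul_zero, mul_zero, add_zero, eval_one] at this
    exact zero_ne_one this

/-- the lift of the map -/
lemma lift_rt {d : ℕ} {p q : F[X]} (hp : p.natDegree ≤ d) (hq : q.natDegree ≤ d)
    (hl : p.coeff d ≠ 0 ∨ q.coeff d ≠ 0) (hco : IsCoprime p q) (z : Option F) :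
    ∃ μ : F, μ ≠ 0 ∧ hv d p (vec z) = μ * (vec (rt p q d z)).1 ∧
      hv d q (vec z) = μ * (vec (rt p q d z)).2 := by
  classical
  rcases z with _ | x
  · have e1 : hv d p (vec none) = p.coeff d := by
      show hv d p (1, 0) = _
      rw [hv_zero, one_pow, mul_one]
    have e2 : hv d q (vec none) = q.coeff d := by
      show hv d q (1, 0) = _
      rw [hv_zero, one_pow, mul_one]
    rw [e1, e2]
    by_cases h : q.coeff d = 0
    · have h3 : rt p q d none = none := if_pos h
      rw [h3]
      refine ⟨p.coeff d, hl.resolve_right (fun h' => h' h), ?_, ?_⟩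
      · show _ = _ * (1 : F)
        rw [mul_one]
      · show _ = _ * (0 : F)
        rw [mul_zero, h]
    · have h3 : rt p q d none = some (p.coeff d / q.coeff d) := if_neg h
      rw [h3]
      refine ⟨q.coeff d, h, ?_, ?_⟩
      · show _ = _ * (p.coeff d / q.coeff d)
        field_simp
      · show _ = _ * (1 : F)
        rw [mul_one]
  · have e1 : hv d p (vec (some x)) = p.eval x := hv_one d p hp x
    have e2 : hv d q (vec (some x)) = q.eval x := hv_one d q hq x
    rw [e1, e2]
    by_cases h : q.eval x = 0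
    · have h3 : rt p q d (some x) = none := if_pos h
      rw [h3]
      refine ⟨p.eval x, ?_, ?_, ?_⟩
      · intro h'
        obtain ⟨r, s, hrs⟩ := hco
        have := congrArg (eval x) hrs
        rw [eval_add, eval_mul, eval_mul, h, h', mul_zero, mul_zero, add_zero, eval_one] at this
        exact zero_ne_one this
      · show _ = _ * (1 : F)
        rw [mul_one]
      · show _ = _ * (0 : F)
        rw [mul_zero, h]
    · have h3 : rt p q d (some x) = some (p.eval x / q.eval x) := if_neg h
      rw [h3]
      refine ⟨q.eval x, h, ?_, ?_⟩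
      · show _ = _ * (p.eval x / q.eval x)
        field_simp
      · show _ = _ * (1 : F)
        rw [mul_one]

/-- linear polynomials -/
lemma lin_deg (a b : F) : (C a * X + C b : F[X]).natDegree ≤ 1 := natDegree_linear_le

lemma lin_coeff (a b : F) : (C a * X + C b : F[X]).coeff 1 = a := by
  simp [coeff_C]

/-- the homogeneous form of a polynomial identity -/
lemma hom_id {d : ℕ} {p q u : F[X]} (hp : p.natDegree ≤ d) (hq : q.natDegree ≤ d)
    {a b c e t r s : F}
    (h : hcp d u (C a * X + C b) (C c * X + C e) = C t * (C r * p + C s * q)) (v : F × F) :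
    hv d u (mx a b c e v) = t * (r * hv d p v + s * hv d q v) := by
  by_cases hy : v.2 = 0
  · have hv' : v = v.1 • ((1, 0) : F × F) := by
      ext
      · simp
      · simp [hy]
    rw [hv', mx_smul, hv_smul, hv_smul, hv_smul]
    have h1 := congrArg (fun g : F[X] => g.coeff (d * 1)) h
    rw [hcp_coeff d 1 _ _ _ (lin_deg a b) (lin_deg c e), lin_coeff, lin_coeff, coeff_C_mul,
      coeff_add, coeff_C_mul, coeff_C_mul, mul_one] at h1
    have h2 : mx a b c e ((1, 0) : F × F) = (a, c) := by simp [mx]
    rw [h2, h1, hv_zero, hv_zero, one_pow]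
    ring
  · have hv' : v = v.2 • ((v.1 / v.2, 1) : F × F) := by
      ext
      · simp only [Prod.smul_fst, smul_eq_mul]
        field_simp
      · simp
    rw [hv', mx_smul, hv_smul, hv_smul, hv_smul, hv_one d p hp, hv_one d q hq]
    have h1 := congrArg (eval (v.1 / v.2)) h
    rw [hcp_eval] at h1
    have h2 : mx a b c e ((v.1 / v.2, 1) : F × F) =
        ((C a * X + C b : F[X]).eval (v.1 / v.2), (C c * X + C e : F[X]).eval (v.1 / v.2)) := by
      simp [mx]
    rw [h2, h1]
    simp only [eval_mul, eval_add, eval_C]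
    ring

end forms

end Pool.Agent.Z864.UB
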