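import Pool.Agent.Z864.UB.Points

set_option autoImplicit false

namespace Pool.Agent.Z864.UB

open Polynomial Finset

section interp

variable {E : Type*} [Field E]

/-- the polynomial with given coefficients -/
noncomputable def pl {d : ℕ} (g : Fin (d + 1) → E) : E[X] := ∑ i, C (g i) * X ^ (i : ℕ)

lemma pl_coeff {d : ℕ} (g : Fin (d + 1) → E) (i : Fin (d + 1)) : (pl g).coeff i = g i := by
  unfold pl
  rw [finsetSum_coeff, Finset.sum_eq_single i]
  · simp
  · intro j _ hj
    rw [coeff_C_mul, coeff_X_pow, if_neg (fun h => hj (Fin.ext h.symm)), mul_zero]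
  · intro h
    exact absurd (Finset.mem_univ i) h

lemma pl_deg {d : ℕ} (g : Fin (d + 1) → E) : (pl g).natDegree ≤ d := by
  unfold pl
  apply natDegree_sum_le_of_forall_le
  intro i _
  exact (natDegree_C_mul_X_pow_le _ _).trans (by omega)

lemma pl_hv {d : ℕ} (g : Fin (d + 1) → E) (s t : E) :
    hv d (pl g) (s, t) = ∑ i : Fin (d + 1), g i * s ^ (i : ℕ) * t ^ (d - (i : ℕ)) := by
  unfold hv
  rw [Finset.sum_range]
  apply Finset.sum_congr rfl
  intro i _
  rw [pl_coeff]

/-- interpolation: more unknowns than equations -/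
lemma interp {ι : Type*} [Fintype ι] (d : ℕ) (hι : Fintype.card ι = 2 * d + 1) (s t s' t' : ι → E) :
    ∃ u w : E[X], (u ≠ 0 ∨ w ≠ 0) ∧ u.natDegree ≤ d ∧ w.natDegree ≤ d ∧
      ∀ x, s' x * hv d w (s x, t x) = t' x * hv d u (s x, t x) := by
  let L : (Fin (d + 1) ⊕ Fin (d + 1) → E) →ₗ[E] (ι → E) :=
    { toFun := fun f x =>
        s' x * (∑ i : Fin (d + 1), f (Sum.inr i) * s x ^ (i : ℕ) * t x ^ (d - (i : ℕ))) -
        t' x * (∑ i : Fin (d + 1), f (Sum.inl i) * s x ^ (i : ℕ) * t x ^ (d - (i : ℕ)))
      map_add' := by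
        intro f g
        funext x
        simp only [Pi.add_apply, add_mul, Finset.sum_add_distrib]
        ring
      map_smul' := by
        intro r f
        funext x
        simp only [Pi.smul_apply, smul_eq_mul, RingHom.id_apply, mul_assoc]
        rw [← Finset.mul_sum, ← Finset.mul_sum]
        ring }
  have hker : LinearMap.ker L ≠ ⊥ := by
    apply LinearMap.ker_ne_bot_of_finrank_lt
    rw [Module.finrank_fintype_fun_eq_card, Module.finrank_fintype_fun_eq_card, hι,
      Fintype.card_sum, Fintype.card_fin]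
    omega
  obtain ⟨f, hf, hf0⟩ := (Submodule.ne_bot_iff _).mp hker
  refine ⟨pl fun i => f (Sum.inl i), pl fun i => f (Sum.inr i), ?_, pl_deg _, pl_deg _, ?_⟩
  · by_contra hcon
    push Not at hcon
    apply hf0
    funext j
    rcases j with i | i
    · have := pl_coeff (fun i => f (Sum.inl i)) i
      rw [hcon.1, coeff_zero] at this
      exact this.symm
    · have := pl_coeff (fun i => f (Sum.inr i)) i
      rw [hcon.2, coeff_zero] at this
      exact this.symm
  · intro x
    have h1 := congrFun (LinearMap.mem_ker.mp hf) x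
    rw [pl_hv, pl_hv]
    exact sub_eq_zero.mp h1

end interp

/-- a large stable set with algebraic cross ratios -/
theorem iso_of_xr {k K : Type*} [Field k] [Field K] [Algebra k K] {d : ℕ}
    {p q : K[X]} (hp : p.natDegree ≤ d) (hq : q.natDegree ≤ d)
    (hl : p.coeff d ≠ 0 ∨ q.coeff d ≠ 0) (hco : IsCoprime p q) {P : Finset (Option K)}
    (hP : ∀ z ∈ P, rt p q d z ∈ P) {z₁ z₂ z₃ : Option K}
    (h12 : z₁ ≠ z₂) (h13 : z₁ ≠ z₃) (h23 : z₂ ≠ z₃) (hcard : 2 * d + 2 ≤ P.card)
    (halg : ∀ z ∈ P, IsAlgebraic k (xr z₁ z₂ z₃ z)) :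
    ∃ a b c e : K, a * e - b * c ≠ 0 ∧ ∃ u w : K[X], (u ≠ 0 ∨ w ≠ 0) ∧
      u.natDegree ≤ d ∧ w.natDegree ≤ d ∧ (∀ n, IsAlgebraic k (u.coeff n)) ∧
      (∀ n, IsAlgebraic k (w.coeff n)) ∧
      (C a * p + C b * q) * hcp d w (C a * X + C b) (C c * X + C e) =
        (C c * p + C e * q) * hcp d u (C a * X + C b) (C c * X + C e) := by
  classical
  set A := wd (vec z₃) (vec z₂) with hA
  set B := wd (vec z₃) (vec z₁) with hB
  have hA0 : A ≠ 0 := wd_ne h23.symm
  have hB0 : B ≠ 0 := wd_ne h13.symm
  have hD0 : wd (vec z₁) (vec z₂) ≠ 0 := wd_ne h12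
  set a := A * (vec z₁).2 with ha
  set b := -(A * (vec z₁).1) with hb
  set c := B * (vec z₂).2 with hc
  set e := -(B * (vec z₂).1) with he
  have hmx : ∀ v : K × K, mx a b c e v = (A * wd v (vec z₁), B * wd v (vec z₂)) := by
    intro v
    unfold mx wd
    ext
    · simp only [ha, hb]
      ring
    · simp only [hc, he]
      ring
  have hdet : a * e - b * c ≠ 0 := by
    have : a * e - b * c = A * B * wd (vec z₁) (vec z₂) := by
      simp only [ha, hb, hc, he]
      unfold wd
      ring
    rw [this]
    exact mul_ne_zero (mul_ne_zero hA0 hB0) hD0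
  -- coordinates over the algebraic closure of the constants
  have hst : ∀ z : Option K, ∃ (s t : algebraicClosure k K) (l : K), z ∈ P → l ≠ 0 ∧
      mx a b c e (vec z) = l • ((s : K), (t : K)) := by
    intro z
    by_cases hz : z ∈ P
    · by_cases hz2 : z = z₂
      · refine ⟨1, 0, A * wd (vec z) (vec z₁), fun _ => ⟨?_, ?_⟩⟩
        · rw [hz2]
          exact mul_ne_zero hA0 (wd_ne h12.symm)
        · rw [hmx, hz2]
          ext
          · simp
          · simp only [Prod.smul_snd, smul_eq_mul]
            have : wd (vec z₂) (vec z₂) = 0 := by unfold wd; ring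
            rw [this]
            simp
      · refine ⟨⟨xr z₁ z₂ z₃ z, mem_algebraicClosure_iff.mpr (halg z hz)⟩, 1,
          B * wd (vec z) (vec z₂), fun _ => ⟨mul_ne_zero hB0 (wd_ne hz2), ?_⟩⟩
        rw [hmx]
        have hw0 : wd (vec z) (vec z₂) ≠ 0 := wd_ne hz2
        ext
        · simp only [Prod.smul_fst, smul_eq_mul]
          unfold xr
          rw [mul_div_cancel₀ _ (mul_ne_zero hB0 hw0)]
        · simp
    · exact ⟨0, 0, 0, fun h => absurd h hz⟩
  choose s t l hl' using hst
  -- finitely many finite points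
  have hfin : 2 * d + 1 ≤ (Finset.eraseNone P).card := by
    have h1 := congrArg Finset.card (Finset.map_some_eraseNone P)
    rw [Finset.card_map] at h1
    have h2 := Finset.pred_card_le_card_erase (s := P) (a := none)
    omega
  obtain ⟨T, hTP, hTc⟩ := Finset.exists_subset_card_eq hfin
  have hTmem : ∀ x ∈ T, some x ∈ P := fun x hx => Finset.mem_eraseNone.mp (hTP hx)
  obtain ⟨u, w, hne, hu, hw, huw⟩ := interp (E := algebraicClosure k K) (ι := T) d
    (by rw [Fintype.card_coe, hTc]) (fun x => s (some (x : K))) (fun x => t (some (x : K)))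
    (fun x => s (rt p q d (some (x : K)))) (fun x => t (rt p q d (some (x : K))))
  set φ := algebraMap (algebraicClosure k K) K with hφ
  refine ⟨a, b, c, e, hdet, u.map φ, w.map φ, ?_, natDegree_map_le.trans hu,
    natDegree_map_le.trans hw, ?_, ?_, ?_⟩
  · rcases hne with h | h
    · exact Or.inl ((Polynomial.map_ne_zero_iff φ.injective).mpr h)
    · exact Or.inr ((Polynomial.map_ne_zero_iff φ.injective).mpr h)
  · intro n
    rw [coeff_map]
    exact mem_algebraicClosure_iff.mp (u.coeff n).2
  · intro n
    rw [coeff_map]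
    exact mem_algebraicClosure_iff.mp (w.coeff n).2
  · rw [← sub_eq_zero]
    apply eq_zero_of_natDegree_lt_card_of_eval_eq_zero' _ T
    · intro x hx
      have hxP := hTmem x hx
      obtain ⟨hl0, e1⟩ := hl' (some x) hxP
      obtain ⟨-, e2⟩ := hl' (rt p q d (some x)) (hP _ hxP)
      obtain ⟨μ, -, e3, e4⟩ := lift_rt hp hq hl hco (some x)
      have e3' : p.eval x = μ * (vec (rt p q d (some x))).1 := by
        rw [← e3]
        exact (hv_one d p hp x).symm
      have e4' : q.eval x = μ * (vec (rt p q d (some x))).2 := by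
        rw [← e4]
        exact (hv_one d q hq x).symm
      have e5 := congrArg φ (huw ⟨x, hx⟩)
      rw [map_mul, map_mul, ← hv_map, ← hv_map] at e5
      have e1a : a * x + b = l (some x) * φ (s (some x)) := by
        have h9 : a * x + b * 1 = l (some x) * φ (s (some x)) := congrArg Prod.fst e1
        rwa [mul_one] at h9
      have e1b : c * x + e = l (some x) * φ (t (some x)) := by
        have h9 : c * x + e * 1 = l (some x) * φ (t (some x)) := congrArg Prod.snd e1
        rwa [mul_one] at h9
      have e2a : a * (vec (rt p q d (some x))).1 + b * (vec (rt p q d (some x))).2 =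
          l (rt p q d (some x)) * φ (s (rt p q d (some x))) := congrArg Prod.fst e2
      have e2b : c * (vec (rt p q d (some x))).1 + e * (vec (rt p q d (some x))).2 =
          l (rt p q d (some x)) * φ (t (rt p q d (some x))) := congrArg Prod.snd e2
      have e6 : ((C a * X + C b : K[X]).eval x, (C c * X + C e : K[X]).eval x) =
          l (some x) • ((φ (s (some x)), φ (t (some x))) : K × K) := by
        ext
        · simp only [eval_add, eval_mul, eval_C, eval_X, Prod.smul_fst, smul_eq_mul]
          exact e1a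
        · simp only [eval_add, eval_mul, eval_C, eval_X, Prod.smul_snd, smul_eq_mul]
          exact e1b
      rw [eval_sub, eval_mul, eval_mul, hcp_eval, hcp_eval, e6, hv_smul, hv_smul]
      simp only [eval_add, eval_mul, eval_C]
      rw [e3', e4']
      simp only at e5
      linear_combination (μ * l (some x) ^ d * hv d (w.map φ) (φ (s (some x)), φ (t (some x)))) * e2a
        - (μ * l (some x) ^ d * hv d (u.map φ) (φ (s (some x)), φ (t (some x)))) * e2b
        + (μ * l (some x) ^ d * l (rt p q d (some x))) * e5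
    · have h1 : ∀ r s : K, (C r * p + C s * q).natDegree ≤ d := fun r s =>
        (natDegree_add_le _ _).trans (max_le ((natDegree_C_mul_le _ _).trans hp)
          ((natDegree_C_mul_le _ _).trans hq))
      have h2 : ∀ g : K[X], (hcp d g (C a * X + C b) (C c * X + C e)).natDegree ≤ d := by
        intro g
        have := hcp_degree d 1 g _ _ (lin_deg a b) (lin_deg c e)
        rwa [mul_one] at this
      rw [hTc]
      refine lt_of_le_of_lt ((natDegree_sub_le _ _).trans (max_le
        (natDegree_mul_le.trans (add_le_add (h1 a b) (h2 _)))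
        (natDegree_mul_le.trans (add_le_add (h1 c e) (h2 _))))) (by omega)

end Pool.Agent.Z864.UB
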