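import Pool.Agent.Z864.UB.Conj

set_option autoImplicit false

namespace Pool.Agent.Z864.UB

open Polynomial Finset

section points

variable {k F : Type*} [Field k] [Field F] [Algebra k F]

/-- polynomials with algebraic coefficients -/
lemma lift_poly (u : F[X]) (hu : ∀ n, IsAlgebraic k (u.coeff n)) :
    ∃ u₀ : (algebraicClosure k F)[X], u₀.map (algebraMap (algebraicClosure k F) F) = u := by
  rw [← mem_lifts, lifts_iff_coeff_lifts]
  intro n
  exact ⟨⟨u.coeff n, mem_algebraicClosure_iff.mpr (hu n)⟩, rfl⟩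

/-- points of finite orbit are algebraic after conjugation -/
theorem alg_points [IsAlgClosed F] {d : ℕ} (hd : 2 ≤ d)
    {p q u w : F[X]} (hp : p.natDegree ≤ d) (hq : q.natDegree ≤ d)
    (hl : p.coeff d ≠ 0 ∨ q.coeff d ≠ 0) (hco : IsCoprime p q)
    {a b c e : F} (hdet : a * e - b * c ≠ 0) (hne : u ≠ 0 ∨ w ≠ 0) (hu : u.natDegree ≤ d)
    (hw : w.natDegree ≤ d) (hua : ∀ n, IsAlgebraic k (u.coeff n))
    (hwa : ∀ n, IsAlgebraic k (w.coeff n))
    (hid : (C a * p + C b * q) * hcp d w (C a * X + C b) (C c * X + C e) =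
      (C c * p + C e * q) * hcp d u (C a * X + C b) (C c * X + C e)) {z : Option F}
    (hz : (Set.range fun m : ℕ => (rt p q d)^[m] z).Finite) :
    ∃ l : F, l ≠ 0 ∧ IsAlgebraic k (l * (mx a b c e (vec z)).1) ∧
      IsAlgebraic k (l * (mx a b c e (vec z)).2) := by
  haveI : Infinite F := IsAlgClosed.instInfinite
  obtain ⟨t, ht, h1, h2⟩ := key_id (by omega) hl hco hdet hne hu hw hid
  have hnz : ∀ v : F × F, v ≠ 0 → GG d u w v ≠ 0 := fun v hv0 =>
    GG_nz (by omega) hp hq hl hco ht hdet h1 h2 hv0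
  obtain ⟨V, hV⟩ : ∃ V, V = mx a b c e (vec z) := ⟨_, rfl⟩
  have hV0 : V ≠ 0 := fun h => vec_ne z (mx_ne hdet (hV.symm.trans h))
  -- the orbit is not injective
  obtain ⟨m, n, hmn, hrep⟩ : ∃ m n : ℕ, n < m ∧ (rt p q d)^[m] z = (rt p q d)^[n] z := by
    have hni : ¬ Function.Injective fun m : ℕ => (rt p q d)^[m] z := fun h =>
      Set.infinite_range_of_injective h hz
    rw [Function.Injective] at hni
    push Not at hni
    obtain ⟨m, n, h, hne'⟩ := hni
    rcases Nat.lt_or_gt_of_ne hne' with h' | h'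
    · exact ⟨n, m, h', h.symm⟩
    · exact ⟨m, n, h', h⟩
  obtain ⟨ν, hν, e1⟩ := GG_orbit hp hq hl hco ht h1 h2 z m
  obtain ⟨ν', hν', e2⟩ := GG_orbit hp hq hl hco ht h1 h2 z n
  have hpar : wd ((GG d u w)^[m] V) ((GG d u w)^[n] V) = 0 := by
    rw [hV, e1, e2, hrep, wd_smul]
    unfold wd
    ring
  rw [← hV]
  by_cases hy : V.2 = 0
  · have hx : V.1 ≠ 0 := fun hx => hV0 (Prod.ext hx hy)
    refine ⟨V.1⁻¹, inv_ne_zero hx, ?_, ?_⟩
    · rw [inv_mul_cancel₀ hx]
      exact isAlgebraic_one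
    · rw [hy, mul_zero]
      exact isAlgebraic_zero
  · refine ⟨V.2⁻¹, inv_ne_zero hy, ?_, ?_⟩
    · by_contra hτ
      obtain ⟨u₀, rfl⟩ := lift_poly (k := k) u hua
      obtain ⟨w₀, rfl⟩ := lift_poly (k := k) w hwa
      have hVτ : V = V.2 • ((V.2⁻¹ * V.1, 1) : F × F) := by
        ext
        · simp only [Prod.smul_fst, smul_eq_mul]
          rw [mul_inv_cancel_left₀ hy]
        · simp
      have hτ' : Transcendental (algebraicClosure k F) (V.2⁻¹ * V.1) := by
        intro h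
        exact hτ (h.restrictScalars k)
      refine not_prep hd u₀ w₀ hnz hτ' hmn ?_
      rw [hVτ, GG_iter_smul, GG_iter_smul, wd_smul] at hpar
      exact (mul_eq_zero.mp hpar).resolve_left
        (mul_ne_zero (pow_ne_zero _ hy) (pow_ne_zero _ hy))
    · rw [inv_mul_cancel₀ hy]
      exact isAlgebraic_one

/-- the cross ratio of four points -/
def xr (z₁ z₂ z₃ z : Option F) : F :=
  wd (vec z₃) (vec z₂) * wd (vec z) (vec z₁) / (wd (vec z₃) (vec z₁) * wd (vec z) (vec z₂))

/-- cross ratios of points of finite orbit are algebraic -/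
theorem alg_xr [IsAlgClosed F] {d : ℕ} (hd : 2 ≤ d)
    {p q u w : F[X]} (hp : p.natDegree ≤ d) (hq : q.natDegree ≤ d)
    (hl : p.coeff d ≠ 0 ∨ q.coeff d ≠ 0) (hco : IsCoprime p q)
    {a b c e : F} (hdet : a * e - b * c ≠ 0) (hne : u ≠ 0 ∨ w ≠ 0) (hu : u.natDegree ≤ d)
    (hw : w.natDegree ≤ d) (hua : ∀ n, IsAlgebraic k (u.coeff n))
    (hwa : ∀ n, IsAlgebraic k (w.coeff n))
    (hid : (C a * p + C b * q) * hcp d w (C a * X + C b) (C c * X + C e) =
      (C c * p + C e * q) * hcp d u (C a * X + C b) (C c * X + C e)) {z₁ z₂ z₃ z : Option F}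
    (hz₁ : (Set.range fun m : ℕ => (rt p q d)^[m] z₁).Finite)
    (hz₂ : (Set.range fun m : ℕ => (rt p q d)^[m] z₂).Finite)
    (hz₃ : (Set.range fun m : ℕ => (rt p q d)^[m] z₃).Finite)
    (hz : (Set.range fun m : ℕ => (rt p q d)^[m] z).Finite) :
    IsAlgebraic k (xr z₁ z₂ z₃ z) := by
  obtain ⟨l₁, h1, a1, b1⟩ := alg_points hd hp hq hl hco hdet hne hu hw hua hwa hid hz₁
  obtain ⟨l₂, h2, a2, b2⟩ := alg_points hd hp hq hl hco hdet hne hu hw hua hwa hid hz₂
  obtain ⟨l₃, h3, a3, b3⟩ := alg_points hd hp hq hl hco hdet hne hu hw hua hwa hid hz₃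
  obtain ⟨l, h0, a0, b0⟩ := alg_points hd hp hq hl hco hdet hne hu hw hua hwa hid hz
  have key : ∀ (s t : F) (y y' : Option F), IsAlgebraic k (s * (mx a b c e (vec y)).1) →
      IsAlgebraic k (s * (mx a b c e (vec y)).2) → IsAlgebraic k (t * (mx a b c e (vec y')).1) →
      IsAlgebraic k (t * (mx a b c e (vec y')).2) →
      IsAlgebraic k (s * t * ((a * e - b * c) * wd (vec y) (vec y'))) := by
    intro s t y y' g1 g2 g3 g4
    rw [← wd_mx, ← wd_smul]
    unfold wd
    simp only [Prod.smul_fst, Prod.smul_snd, smul_eq_mul]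
    exact (g1.mul g4).sub (g2.mul g3)
  have e1 := key l₃ l₂ z₃ z₂ a3 b3 a2 b2
  have e2 := key l l₁ z z₁ a0 b0 a1 b1
  have e3 := key l₃ l₁ z₃ z₁ a3 b3 a1 b1
  have e4 := key l l₂ z z₂ a0 b0 a2 b2
  have e5 := (e1.mul e2).mul (e3.mul e4).inv
  have hc : l₁ * l₂ * l₃ * l * (a * e - b * c) * (a * e - b * c) ≠ 0 :=
    mul_ne_zero (mul_ne_zero (mul_ne_zero (mul_ne_zero (mul_ne_zero h1 h2) h3) h0) hdet) hdet
  have e6 : xr z₁ z₂ z₃ z = (l₃ * l₂ * ((a * e - b * c) * wd (vec z₃) (vec z₂)) *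
      (l * l₁ * ((a * e - b * c) * wd (vec z) (vec z₁)))) *
      (l₃ * l₁ * ((a * e - b * c) * wd (vec z₃) (vec z₁)) *
      (l * l₂ * ((a * e - b * c) * wd (vec z) (vec z₂))))⁻¹ := by
    unfold xr
    rw [← mul_div_mul_left _ _ hc, ← div_eq_mul_inv]
    congr 1 <;> ring
  rw [e6]
  exact e5

end points

section maps

variable {K L : Type*} [Field K] [Field L] (φ : K →+* L)

lemma vec_map (z : Option K) : vec (z.map φ) = (φ (vec z).1, φ (vec z).2) := by
  rcases z with _ | x
  · simp [vec]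
  · simp [vec]

lemma wd_vec_map (z z' : Option K) :
    wd (vec (z.map φ)) (vec (z'.map φ)) = φ (wd (vec z) (vec z')) := by
  rw [vec_map, vec_map]
  unfold wd
  simp

lemma xr_map (z₁ z₂ z₃ z : Option K) :
    xr (z₁.map φ) (z₂.map φ) (z₃.map φ) (z.map φ) = φ (xr z₁ z₂ z₃ z) := by
  unfold xr
  simp only [wd_vec_map]
  rw [map_div₀, map_mul, map_mul]

lemma rt_map (p q : K[X]) (d : ℕ) (z : Option K) :
    rt (p.map φ) (q.map φ) d (z.map φ) = (rt p q d z).map φ := by
  classical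
  rcases z with _ | x
  · by_cases h : q.coeff d = 0
    · have h1 : rt p q d none = none := if_pos h
      have h2 : rt (p.map φ) (q.map φ) d none = none := if_pos (by rw [coeff_map, h, map_zero])
      rw [h1]
      exact h2
    · have h1 : rt p q d none = some (p.coeff d / q.coeff d) := if_neg h
      have h2 : rt (p.map φ) (q.map φ) d none =
          some ((p.map φ).coeff d / (q.map φ).coeff d) := if_neg (by
        rw [coeff_map]
        exact (map_ne_zero φ).mpr h)
      rw [h1]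
      refine h2.trans ?_
      rw [coeff_map, coeff_map, ← map_div₀]
      rfl
  · by_cases h : q.eval x = 0
    · have h1 : rt p q d (some x) = none := if_pos h
      have h2 : rt (p.map φ) (q.map φ) d (some (φ x)) = none :=
        if_pos (by rw [eval_map_apply, h, map_zero])
      rw [h1]
      exact h2
    · have h1 : rt p q d (some x) = some (p.eval x / q.eval x) := if_neg h
      have h2 : rt (p.map φ) (q.map φ) d (some (φ x)) =
          some ((p.map φ).eval (φ x) / (q.map φ).eval (φ x)) := if_neg (by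
        rw [eval_map_apply]
        exact (map_ne_zero φ).mpr h)
      rw [h1]
      refine h2.trans ?_
      rw [eval_map_apply, eval_map_apply, ← map_div₀]
      rfl

lemma orbit_map (p q : K[X]) (d : ℕ) (z : Option K)
    (h : (Set.range fun m : ℕ => (rt p q d)^[m] z).Finite) :
    (Set.range fun m : ℕ => (rt (p.map φ) (q.map φ) d)^[m] (z.map φ)).Finite := by
  have key : ∀ m : ℕ, (rt (p.map φ) (q.map φ) d)^[m] (z.map φ) = ((rt p q d)^[m] z).map φ := by
    intro m
    induction m with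
    | zero => rfl
    | succ m ih =>
      rw [Function.iterate_succ_apply', Function.iterate_succ_apply', ih, rt_map]
  refine (h.image (Option.map φ)).subset ?_
  rintro _ ⟨m, rfl⟩
  exact ⟨_, ⟨m, rfl⟩, (key m).symm⟩

end maps

end Pool.Agent.Z864.UB
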